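import Pool.Agent.H58.SK.Group
import Pool.Graph.R_seed8.H161R2.KissSym2
import Pool.Graph.R_seed8.H161R2.KissLow

/-!
# Bounds for symmetric spherical codes
-/

set_option autoImplicit false
set_option linter.unusedSectionVars false

open scoped InnerProductSpace
open Module Pool.Agent.H818R2 Pool.Agent.H161R2.KissSym

namespace Pool.Agent.H58.SK

lemma code_sep {n : ℕ} {θ : ℝ} {X : Finset (EuclideanSpace ℝ (Fin n))} (hX : IsSphCode n θ X) :
    ∀ x ∈ X, ∀ y ∈ X, x ≠ y → 4 * Real.sin (θ / 2) ^ 2 ≤ ‖x - y‖ ^ 2 := by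
  intro x hx y hy hxy
  rw [norm_sub_sq_real, hX.1 x hx, hX.1 y hy]
  have h1 := hX.2 x hx y hy hxy
  have h2 := Real.cos_sq' (θ / 2)
  have h3 := Real.cos_two_mul (θ / 2)
  rw [show 2 * (θ / 2) = θ by ring] at h3
  nlinarith

open Classical in
/-- counting by supports -/
theorem count_codes {n : ℕ} {θ : ℝ} (hs : 0 < Real.sin (θ / 2))
    {X : Finset (EuclideanSpace ℝ (Fin n))} (hX : IsSphCode n θ X)
    {B : Type} [Fintype B] (v : B → EuclideanSpace ℝ (Fin n))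
    (hv : finrank ℝ (Submodule.span ℝ (Set.range v)) = Fintype.card B) {c M K y : ℝ}
    (hK : 1 ≤ K) (hy : 0 < y) (hy1 : y ≤ 1) (hM : 0 ≤ M)
    (hI : ∑ x ∈ X, ((Finset.univ.filter fun b => ⟪x, v b⟫_ℝ ≠ 0).card : ℝ) ≤ c * X.card)
    (hc : ∀ i : ℕ, i ≤ Fintype.card B →
      (sphMax (n - Fintype.card B + i) θ : ℝ) ≤ M * K ^ i) :
    (X.card : ℝ) * (y / K) ^ c ≤ M * (1 + y) ^ Fintype.card B := by
  refine card_le_of_supports X (fun x => Finset.univ.filter fun b => ⟪x, v b⟫_ℝ ≠ 0)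
    hK hy hy1 hM hI fun J => ?_
  refine le_trans ?_ (hc J.card (Finset.card_le_univ J))
  have h1 : (X.filter fun x => (Finset.univ.filter fun b => ⟪x, v b⟫_ℝ ≠ 0) = J).card ≤
      sphMax (finrank ℝ ((Submodule.span ℝ (v '' ((Jᶜ : Finset B) : Set B)))ᗮ :
        Submodule ℝ (EuclideanSpace ℝ (Fin n)))) θ := by
    refine card_le_sub hs _ ⟨fun x hx => hX.1 x (Finset.mem_filter.1 hx).1, fun x hx y hy hxy =>
      hX.2 x (Finset.mem_filter.1 hx).1 y (Finset.mem_filter.1 hy).1 hxy⟩ fun x hx => ?_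
    rw [Submodule.mem_orthogonal]
    intro u hu
    induction hu using Submodule.span_induction with
    | mem u hu =>
      obtain ⟨b, hb, rfl⟩ := hu
      have hb2 : b ∉ J := by simpa using hb
      rw [← (Finset.mem_filter.1 hx).2] at hb2
      simp only [Finset.mem_filter, Finset.mem_univ, true_and, not_not] at hb2
      rw [real_inner_comm]
      exact hb2
    | zero => exact inner_zero_left _
    | add u w _ _ h1 h2 => rw [inner_add_left, h1, h2, add_zero]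
    | smul a u _ h => rw [inner_smul_left, h, mul_zero]
  have h2 := finrank_perp v hv J
  rw [finrank_euclideanSpace_fin] at h2
  exact_mod_cast h1.trans (sphMax_mono hs h2)

/-- the choice of the parameter -/
theorem numeric {a M K c : ℝ} {m : ℕ} (hc0 : 0 < c) (hcm : c ≤ m) (hK : 1 ≤ K) (hM : 0 ≤ M)
    (h : ∀ y : ℝ, 0 < y → y ≤ 1 → a * (y / K) ^ c ≤ M * (1 + y) ^ m) :
    a ≤ M * (Real.exp 1 * K * m / c) ^ c := by
  have hm : (0 : ℝ) < m := lt_of_lt_of_le hc0 hcm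
  have h1 := h (c / m) (by positivity) (by rw [div_le_one hm]; exact hcm)
  have h2 : (1 + c / m) ^ m ≤ Real.exp 1 ^ c := by
    have h3 := Real.add_one_le_exp (c / m)
    have h4 : (1 + c / m) ^ m ≤ Real.exp (c / m) ^ m :=
      pow_le_pow_left₀ (by positivity) (by linarith) m
    refine h4.trans (le_of_eq ?_)
    rw [← Real.exp_nat_mul, ← Real.exp_mul]
    congr 1
    field_simp
  have h5 : (0 : ℝ) < c / m / K := by positivity
  have h6 : a ≤ M * Real.exp 1 ^ c / (c / m / K) ^ c := by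
    rw [le_div_iff₀ (Real.rpow_pos_of_pos h5 c)]
    exact h1.trans (mul_le_mul_of_nonneg_left h2 hM)
  refine h6.trans (le_of_eq ?_)
  rw [mul_div_assoc, ← Real.div_rpow (by positivity) h5.le]
  congr 2
  field_simp

/-- the constant for codes -/
noncomputable def cst (θ : ℝ) : ℝ := (1 + 2 * Real.sin (θ / 2)) / Real.sin (θ / 2)

lemma one_le_cst {θ : ℝ} (hs : 0 < Real.sin (θ / 2)) : 1 ≤ cst θ := by
  rw [cst, le_div_iff₀ hs]
  linarith

lemma sphMax_le_cst {θ : ℝ} (hs : 0 < Real.sin (θ / 2)) (i : ℕ) :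
    (sphMax i θ : ℝ) ≤ cst θ ^ i := by
  rcases Nat.eq_zero_or_pos i with h | h
  · subst h
    rw [sphMax_zero]
    simp
  · have : NeZero i := ⟨by omega⟩
    refine (sphMax_le hs).trans ?_
    have h1 := rho_le_one i
    have h2 : 0 ≤ cst θ ^ i := pow_nonneg (zero_le_one.trans (one_le_cst hs)) i
    have h3 : cst θ ^ i = ((1 + 2 * Real.sin (θ / 2)) / Real.sin (θ / 2)) ^ i := rfl
    rw [← h3]
    nlinarith

section

variable {n : ℕ} {θ : ℝ} {ι : Type} [Fintype ι] {G : Type} [Group G] [Fintype G]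
  {ρ : G →* (EuclideanSpace ℝ (Fin n) ≃ₗᵢ[ℝ] EuclideanSpace ℝ (Fin n))}
  {U : ι → Submodule ℝ (EuclideanSpace ℝ (Fin n))}

/-- the general inequality -/
theorem general (hs0 : 0 < Real.sin (θ / 2)) (hU : ∀ i j, i ≠ j → U i ⟂ U j)
    (hI : ∀ i, Irr ρ (U i)) (g : ι → G) (hg : ∀ j, ∀ x ∈ (tot U)ᗮ, ρ (g j) x = x)
    (hm : ∀ j, ∃ u ∈ U j, ρ (g j) u ≠ u) {X : Finset (EuclideanSpace ℝ (Fin n))}
    (hX : IsSphCode n θ X) (hGX : ∀ γ, ∀ x ∈ X, ρ γ x ∈ X) {c M K y : ℝ} (hc0 : 0 ≤ c)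
    (hc : ∀ i, ∑ j, finrank ℝ (U j) * hs (ρ (g j)) (U i) ≤
      4 * Real.sin (θ / 2) ^ 2 * c * finrank ℝ (U i))
    (hK : 1 ≤ K) (hy : 0 < y) (hy1 : y ≤ 1) (hM : 0 ≤ M)
    (hMK : ∀ i : ℕ, i ≤ finrank ℝ (tot U) →
      (sphMax (n - finrank ℝ (tot U) + i) θ : ℝ) ≤ M * K ^ i) :
    (X.card : ℝ) * (y / K) ^ c ≤ M * (1 + y) ^ finrank ℝ (tot U) := by
  obtain ⟨B, _, v, hv, hB, hsum⟩ := adapted U ρ hU hI g hg hm (D := 4 * Real.sin (θ / 2) ^ 2)
    (by positivity) hc0 hX.1 (code_sep hX) hGX hc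
  rw [← hB] at hMK ⊢
  exact count_codes hs0 hX v hv hK hy hy1 hM hsum hMK

end

end Pool.Agent.H58.SK
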