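import Pool.Agent.H58.SK.Codes

/-!
# Irreducible groups and reflection groups
-/

set_option autoImplicit false
set_option linter.unusedSectionVars false

open scoped InnerProductSpace
open Module Pool.Agent.H818R2 Pool.Agent.H161R2.KissSym

namespace Pool.Agent.H58.SK

section

variable {E : Type*} [NormedAddCommGroup E] [InnerProductSpace ℝ E] [FiniteDimensional ℝ E]
variable {G : Type*} [Group G] [Fintype G]

/-- every invariant subspace is an orthogonal sum of irreducible ones -/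
theorem exists_decomp (ρ : G →* (E ≃ₗᵢ[ℝ] E)) (d : ℕ) : ∀ W : Submodule ℝ E, Inv ρ W →
    finrank ℝ W ≤ d → ∃ (k : ℕ) (U : Fin k → Submodule ℝ E), (∀ i j, i ≠ j → U i ⟂ U j) ∧
      (∀ i, Irr ρ (U i)) ∧ (⨆ i, U i) = W := by
  classical
  induction d with
  | zero =>
    intro W _ hd
    have hW : W = ⊥ := Submodule.finrank_eq_zero.1 (by omega)
    refine ⟨0, fun i => i.elim0, fun i => i.elim0, fun i => i.elim0, ?_⟩
    rw [hW]
    exact iSup_of_empty _
  | succ d ih =>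
    intro W hW hd
    by_cases h0 : W = ⊥
    · refine ⟨0, fun i => i.elim0, fun i => i.elim0, fun i => i.elim0, ?_⟩
      rw [h0]
      exact iSup_of_empty _
    -- a minimal invariant subspace
    have hex : ∃ r : ℕ, ∃ V : Submodule ℝ E, V ≤ W ∧ V ≠ ⊥ ∧ Inv ρ V ∧ finrank ℝ V = r :=
      ⟨_, W, le_rfl, h0, hW, rfl⟩
    obtain ⟨V, hVW, hV0, hVI, hVr⟩ := Nat.find_spec hex
    have hmin : ∀ V' : Submodule ℝ E, V' ≤ W → V' ≠ ⊥ → Inv ρ V' → finrank ℝ V ≤ finrank ℝ V' := by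
      intro V' h1 h2 h3
      rw [hVr]
      exact Nat.find_min' hex ⟨V', h1, h2, h3, rfl⟩
    have hVirr : Irr ρ V := by
      refine ⟨hV0, hVI, fun W' hW' hI' => ?_⟩
      by_cases h : W' = ⊥
      · exact Or.inl h
      · right
        exact Submodule.eq_of_le_of_finrank_le hW' (hmin W' (hW'.trans hVW) h hI')
    set W' := W ⊓ Vᗮ with hW'
    have hI' : Inv ρ W' := by
      intro γ x hx
      refine ⟨hW γ x hx.1, ?_⟩
      have hx2 := hx.2
      change ρ γ x ∈ Vᗮ
      change x ∈ Vᗮ at hx2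
      rw [Submodule.mem_orthogonal] at hx2 ⊢
      intro v hv
      rw [real_inner_comm, inner_rho, real_inner_comm]
      exact hx2 _ (hVI _ v hv)
    have hsup : V ⊔ W' = W := by
      apply le_antisymm (sup_le hVW inf_le_left)
      intro x hx
      have h1 : x = V.starProjection x + (x - V.starProjection x) := by abel
      rw [h1]
      apply Submodule.add_mem_sup (Submodule.starProjection_apply_mem _ _)
      refine ⟨W.sub_mem hx (hVW (Submodule.starProjection_apply_mem _ _)), ?_⟩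
      exact Submodule.sub_starProjection_mem_orthogonal x
    have hfr : finrank ℝ W' ≤ d := by
      have h1 := Submodule.finrank_sup_add_finrank_inf_eq V W'
      have h2 : V ⊓ W' = ⊥ := by
        rw [eq_bot_iff]
        intro x hx
        have h3 : x ∈ V ⊓ Vᗮ := ⟨hx.1, hx.2.2⟩
        rw [Submodule.inf_orthogonal_eq_bot] at h3
        exact h3
      rw [hsup, h2, finrank_bot] at h1
      have h3 : finrank ℝ V ≠ 0 := fun h => hV0 (Submodule.finrank_eq_zero.1 h)
      omega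
    obtain ⟨k, U, hU1, hU2, hU3⟩ := ih W' hI' hfr
    have hUV : ∀ i, U i ≤ Vᗮ := fun i => ((le_iSup U i).trans hU3.le).trans inf_le_right
    refine ⟨k + 1, Fin.cons V U, ?_, ?_, ?_⟩
    · intro i j hij
      rcases Fin.eq_zero_or_eq_succ i with rfl | ⟨i', rfl⟩ <;>
        rcases Fin.eq_zero_or_eq_succ j with rfl | ⟨j', rfl⟩
      · exact absurd rfl hij
      · rw [Fin.cons_zero, Fin.cons_succ, Submodule.isOrtho_comm, Submodule.isOrtho_iff_le]
        exact hUV j'
      · rw [Fin.cons_zero, Fin.cons_succ, Submodule.isOrtho_iff_le]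
        exact hUV i'
      · rw [Fin.cons_succ, Fin.cons_succ]
        exact hU1 i' j' fun h => hij (by rw [h])
    · intro i
      refine Fin.cases ?_ (fun i' => ?_) i
      · simpa using hVirr
      · simpa using hU2 i'
    · rw [← hsup, ← hU3]
      apply le_antisymm
      · apply iSup_le
        intro i
        refine Fin.cases ?_ (fun i' => ?_) i
        · rw [Fin.cons_zero]
          exact le_sup_left
        · rw [Fin.cons_succ]
          exact (le_iSup U i').trans le_sup_right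
      · apply sup_le
        · exact (le_iSup (Fin.cons V U : Fin (k + 1) → Submodule ℝ E) 0)
        · apply iSup_le
          intro i
          exact (le_iSup (Fin.cons V U : Fin (k + 1) → Submodule ℝ E) i.succ)

/-- `g` is a reflection in a hyperplane -/
def IsRefl (g : E ≃ₗᵢ[ℝ] E) : Prop := ∃ a : E, ‖a‖ = 1 ∧ ∀ x, g x = x - (2 * ⟪a, x⟫_ℝ) • a

lemma hs_refl_mem {g : E ≃ₗᵢ[ℝ] E} {a : E} (ha : ‖a‖ = 1)
    (hg : ∀ x, g x = x - (2 * ⟪a, x⟫_ℝ) • a) {U : Submodule ℝ E} (hU : a ∈ U) : hs g U = 4 := by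
  unfold hs
  have h : ∀ i, ‖g (stdOrthonormalBasis ℝ U i : E) - (stdOrthonormalBasis ℝ U i : E)‖ ^ 2 =
      4 * ⟪(stdOrthonormalBasis ℝ U i : E), a⟫_ℝ ^ 2 := by
    intro i
    rw [hg, sub_sub_cancel_left, norm_neg, norm_smul, ha, real_inner_comm]
    rw [mul_one, Real.norm_eq_abs, sq_abs]
    ring
  rw [Finset.sum_congr rfl fun i _ => h i, ← Finset.mul_sum, sum_onb _ hU, ha]
  norm_num

lemma hs_refl_perp {g : E ≃ₗᵢ[ℝ] E} {a : E}
    (hg : ∀ x, g x = x - (2 * ⟪a, x⟫_ℝ) • a) {U : Submodule ℝ E} (hU : a ∈ Uᗮ) : hs g U = 0 := by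
  unfold hs
  refine Finset.sum_eq_zero fun i _ => ?_
  rw [Submodule.mem_orthogonal] at hU
  rw [hg, real_inner_comm, hU _ (stdOrthonormalBasis ℝ U i).2]
  simp

lemma refl_dichotomy {g : E ≃ₗᵢ[ℝ] E} {a : E}
    (hg : ∀ x, g x = x - (2 * ⟪a, x⟫_ℝ) • a) {U : Submodule ℝ E} (hU : ∀ x ∈ U, g x ∈ U) :
    a ∈ U ∨ a ∈ Uᗮ := by
  by_cases h : ∃ u ∈ U, ⟪a, u⟫_ℝ ≠ 0
  · left
    obtain ⟨u, hu, hne⟩ := h
    have h1 : (2 * ⟪a, u⟫_ℝ) • a ∈ U := by
      have h2 : (2 * ⟪a, u⟫_ℝ) • a = u - g u := by rw [hg]; abel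
      rw [h2]
      exact U.sub_mem hu (hU u hu)
    have h3 : a = (2 * ⟪a, u⟫_ℝ)⁻¹ • ((2 * ⟪a, u⟫_ℝ) • a) := by
      rw [smul_smul, inv_mul_cancel₀ (by simpa using hne), one_smul]
    rw [h3]
    exact U.smul_mem _ h1
  · right
    push Not at h
    rw [Submodule.mem_orthogonal]
    intro u hu
    rw [real_inner_comm]
    exact h u hu

end

section

variable {n : ℕ}

lemma hs_top (g : EuclideanSpace ℝ (Fin n) ≃ₗᵢ[ℝ] EuclideanSpace ℝ (Fin n)) :
    hs g ⊤ = 2 * (n - LinearMap.trace ℝ (EuclideanSpace ℝ (Fin n))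
      (g.toLinearEquiv : EuclideanSpace ℝ (Fin n) →ₗ[ℝ] EuclideanSpace ℝ (Fin n))) := by
  set b := (stdOrthonormalBasis ℝ (⊤ : Submodule ℝ (EuclideanSpace ℝ (Fin n))))
  have h1 := LinearMap.trace_eq_sum_inner
    (g.toLinearEquiv : EuclideanSpace ℝ (Fin n) →ₗ[ℝ] EuclideanSpace ℝ (Fin n))
    (b.map (LinearIsometryEquiv.ofTop (EuclideanSpace ℝ (Fin n)) ⊤ rfl))
  rw [h1]
  unfold hs
  have h2 : ∀ i, ‖g (b i : EuclideanSpace ℝ (Fin n)) - (b i : EuclideanSpace ℝ (Fin n))‖ ^ 2 =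
      2 - 2 * ⟪(b i : EuclideanSpace ℝ (Fin n)), g (b i : EuclideanSpace ℝ (Fin n))⟫_ℝ := by
    intro i
    have h3 : ‖(b i : EuclideanSpace ℝ (Fin n))‖ = 1 := b.orthonormal.1 i
    rw [norm_sub_sq_real, LinearIsometryEquiv.norm_map, h3, real_inner_comm]
    ring
  rw [Finset.sum_congr rfl fun i _ => h2 i, Finset.sum_sub_distrib, ← Finset.mul_sum]
  simp only [Finset.sum_const, Finset.card_univ, Fintype.card_fin, finrank_top,
    finrank_euclideanSpace_fin, nsmul_eq_mul]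
  rw [mul_sub]
  congr 1
  ring

end

end Pool.Agent.H58.SK
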