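import Mathlib

/-!
# Counting points by the supports of their coordinates
-/

set_option autoImplicit false
set_option linter.unusedSectionVars false

open scoped InnerProductSpace
open Module

namespace Pool.Agent.H58.SK

section

variable {α B : Type*} [Fintype B] [DecidableEq B]

/-- If the mean size of the supports `I x` is at most `c`, and every set of size `i` contains at most
`M K ^ i` supports, then there are at most `M (1 + y) ^ |B| (K / y) ^ c` points. -/
theorem card_le_of_supports (X : Finset α) (I : α → Finset B) {c M K y : ℝ}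
    (hK : 1 ≤ K) (hy : 0 < y) (hy1 : y ≤ 1) (hM : 0 ≤ M)
    (hI : ∑ x ∈ X, ((I x).card : ℝ) ≤ c * X.card)
    (hc : ∀ J : Finset B, ((X.filter fun x => I x = J).card : ℝ) ≤ M * K ^ J.card) :
    (X.card : ℝ) * (y / K) ^ c ≤ M * (1 + y) ^ Fintype.card B := by
  have hz : 0 < y / K := by positivity
  have hz1 : y / K ≤ 1 := by
    rw [div_le_one (by linarith)]
    linarith
  have hlog : Real.log (y / K) ≤ 0 := Real.log_nonpos hz.le hz1
  -- lower bound
  have h1 : (X.card : ℝ) * (y / K) ^ c ≤ ∑ x ∈ X, (y / K) ^ (I x).card := by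
    have h2 : ∀ x ∈ X, (y / K) ^ c * (1 + ((I x).card - c) * Real.log (y / K)) ≤
        (y / K) ^ (I x).card := by
      intro x _
      have h3 := Real.add_one_le_exp (((I x).card - c) * Real.log (y / K))
      have h4 : (y / K) ^ (I x).card =
          (y / K) ^ c * Real.exp (((I x).card - c) * Real.log (y / K)) := by
        rw [Real.rpow_def_of_pos hz, ← Real.exp_add, ← Real.rpow_natCast,
          Real.rpow_def_of_pos hz]
        congr 1
        ring
      rw [h4]
      apply mul_le_mul_of_nonneg_left _ (Real.rpow_nonneg hz.le _)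
      linarith
    have h5 := Finset.sum_le_sum h2
    rw [← Finset.mul_sum, Finset.sum_add_distrib, ← Finset.sum_mul, Finset.sum_sub_distrib] at h5
    simp only [Finset.sum_const, nsmul_eq_mul, mul_one] at h5
    refine le_trans ?_ h5
    rw [mul_comm]
    apply mul_le_mul_of_nonneg_left _ (Real.rpow_nonneg hz.le _)
    have h6 : 0 ≤ (∑ x ∈ X, ((I x).card : ℝ) - X.card * c) * Real.log (y / K) := by
      apply mul_nonneg_of_nonpos_of_nonpos _ hlog
      linarith
    linarith
  refine h1.trans ?_
  have h7 : ∑ x ∈ X, (y / K) ^ (I x).card =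
      ∑ J : Finset B, ((X.filter fun x => I x = J).card : ℝ) * (y / K) ^ J.card := by
    rw [← Finset.sum_fiberwise_of_maps_to (s := X) (t := Finset.univ) (g := I)
      (fun x _ => Finset.mem_univ _)]
    refine Finset.sum_congr rfl fun J _ => ?_
    rw [Finset.sum_congr rfl (g := fun _ => (y / K) ^ J.card) (fun x hx => by
      rw [(Finset.mem_filter.1 hx).2])]
    rw [Finset.sum_const, nsmul_eq_mul]
  rw [h7]
  have h8 : ∀ J : Finset B, ((X.filter fun x => I x = J).card : ℝ) * (y / K) ^ J.card ≤
      M * y ^ J.card := by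
    intro J
    calc ((X.filter fun x => I x = J).card : ℝ) * (y / K) ^ J.card
        ≤ M * K ^ J.card * (y / K) ^ J.card :=
          mul_le_mul_of_nonneg_right (hc J) (by positivity)
      _ = M * y ^ J.card := by
          rw [mul_assoc, ← mul_pow, mul_div_cancel₀ _ (by linarith : K ≠ 0)]
  refine (Finset.sum_le_sum fun J _ => h8 J).trans (le_of_eq ?_)
  rw [← Finset.mul_sum]
  congr 1
  have h9 := Finset.sum_pow_mul_eq_add_pow y (1 : ℝ) (Finset.univ : Finset B)
  rw [Finset.powerset_univ] at h9
  simp only [one_pow, mul_one, Finset.card_univ] at h9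
  rw [h9, add_comm]

end

section

variable {E : Type*} [NormedAddCommGroup E] [InnerProductSpace ℝ E] [FiniteDimensional ℝ E]
variable {B : Type*} [Fintype B] [DecidableEq B]

/-- the dimension of the orthogonal complement of the vectors outside `J` -/
theorem finrank_perp (v : B → E) (hv : finrank ℝ (Submodule.span ℝ (Set.range v)) = Fintype.card B)
    (J : Finset B) :
    finrank ℝ ((Submodule.span ℝ (v '' ((Jᶜ : Finset B) : Set B)))ᗮ : Submodule ℝ E) ≤
      finrank ℝ E - Fintype.card B + J.card := by
  classical
  have h1 := Submodule.finrank_add_finrank_orthogonal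
    (Submodule.span ℝ (v '' ((Jᶜ : Finset B) : Set B)))
  have h2 : Submodule.span ℝ (Set.range v) ≤
      Submodule.span ℝ (v '' ((Jᶜ : Finset B) : Set B)) ⊔ Submodule.span ℝ (v '' (J : Set B)) := by
    rw [← Submodule.span_union, ← Set.image_union]
    apply Submodule.span_mono
    rintro _ ⟨b, rfl⟩
    refine ⟨b, ?_, rfl⟩
    by_cases h : b ∈ J
    · exact Or.inr h
    · left
      simpa using h
  have h3 := Submodule.finrank_mono h2
  have h4 := Submodule.finrank_add_le_finrank_add_finrank
    (Submodule.span ℝ (v '' ((Jᶜ : Finset B) : Set B))) (Submodule.span ℝ (v '' (J : Set B)))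
  have h5 : finrank ℝ (Submodule.span ℝ (v '' (J : Set B))) ≤ J.card := by
    have h6 : v '' (J : Set B) = ((J.image v : Finset E) : Set E) := by simp
    rw [h6]
    exact (finrank_span_finset_le_card (R := ℝ) (J.image v)).trans Finset.card_image_le
  have h7 : Fintype.card B ≤ finrank ℝ E := by
    rw [← hv]
    exact Submodule.finrank_le _
  rw [hv] at h3
  omega

end

end Pool.Agent.H58.SK
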