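import Mathlib

/-!
# A basis of small weight

A finite family of vectors such that every subspace `W` contains at most the proportion
`dim W / dim U` of them contains a basis of `U` whose mean weight is at most the mean weight of the
family.
-/

set_option autoImplicit false
set_option linter.unusedSectionVars false

open Module

namespace Pool.Agent.H58.SK

variable {E : Type*} [AddCommGroup E] [Module ℝ E] [FiniteDimensional ℝ E]
variable {Ω : Type*} [Fintype Ω]

lemma finrank_indep (v : Ω → E) (S : Finset Ω) (hS : LinearIndepOn ℝ v (S : Set Ω)) :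
    finrank ℝ (Submodule.span ℝ (v '' (S : Set Ω))) = S.card := by
  have h := finrank_span_eq_card (R := ℝ) (b := fun x : (S : Set Ω) => v x) hS
  have h2 : Set.range (fun x : (S : Set Ω) => v x) = v '' (S : Set Ω) := by
    rw [Set.image_eq_range]
  rw [h2] at h
  rw [h]
  simp

/-- the dimension of the span of the vectors of weight at most `m` -/
noncomputable def rk (v : Ω → E) (w : Ω → ℕ) (m : ℕ) : ℕ :=
  finrank ℝ (Submodule.span ℝ (v '' {ω | w ω ≤ m}))

lemma greedy (v : Ω → E) (w : Ω → ℕ) (m : ℕ) :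
    ∃ S : Finset Ω, (∀ ω ∈ S, w ω ≤ m) ∧ LinearIndepOn ℝ v (S : Set Ω) ∧
      Submodule.span ℝ (v '' (S : Set Ω)) = Submodule.span ℝ (v '' {ω | w ω ≤ m}) ∧
      ∑ ω ∈ S, w ω + ∑ i ∈ Finset.range m, rk v w i ≤ m * rk v w m := by
  classical
  induction m with
  | zero =>
    obtain ⟨b, hb1, -, hb3, hb4⟩ := exists_linearIndepOn_extension (K := ℝ) (v := v)
      (linearIndepOn_empty ℝ v) (Set.empty_subset {ω | w ω ≤ 0})
    refine ⟨b.toFinset, ?_, ?_, ?_, ?_⟩
    · intro ω hω
      exact hb1 (Set.mem_toFinset.1 hω)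
    · rw [Set.coe_toFinset]
      exact hb4
    · rw [Set.coe_toFinset]
      exact le_antisymm (Submodule.span_mono (Set.image_mono hb1)) (Submodule.span_le.2 hb3)
    · have : ∑ ω ∈ b.toFinset, w ω = 0 := by
        refine Finset.sum_eq_zero fun ω hω => ?_
        exact Nat.le_zero.1 (hb1 (Set.mem_toFinset.1 hω))
      simp [this]
  | succ m ih =>
    obtain ⟨S, hS1, hS2, hS3, hS4⟩ := ih
    obtain ⟨b, hb1, hb2, hb3, hb4⟩ := exists_linearIndepOn_extension (K := ℝ) (v := v)
      hS2 (fun ω hω => (hS1 ω hω).trans (Nat.le_succ m) : (S : Set Ω) ⊆ {ω | w ω ≤ m + 1})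
    have hspan : Submodule.span ℝ (v '' b) = Submodule.span ℝ (v '' {ω | w ω ≤ m + 1}) :=
      le_antisymm (Submodule.span_mono (Set.image_mono hb1)) (Submodule.span_le.2 hb3)
    have hli : LinearIndepOn ℝ v (b.toFinset : Set Ω) := by
      rw [Set.coe_toFinset]
      exact hb4
    have hsp2 : Submodule.span ℝ (v '' (b.toFinset : Set Ω)) =
        Submodule.span ℝ (v '' {ω | w ω ≤ m + 1}) := by
      rw [Set.coe_toFinset]
      exact hspan
    refine ⟨b.toFinset, ?_, hli, hsp2, ?_⟩
    · intro ω hω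
      exact hb1 (Set.mem_toFinset.1 hω)
    · have hc1 : S.card = rk v w m := by
        rw [← finrank_indep v S hS2, hS3]
        rfl
      have hc2 : b.toFinset.card = rk v w (m + 1) := by
        rw [← finrank_indep v _ hli, hsp2]
        rfl
      have hsub : S ⊆ b.toFinset := fun ω hω => Set.mem_toFinset.2 (hb2 hω)
      have hsum : ∑ ω ∈ b.toFinset, w ω =
          ∑ ω ∈ b.toFinset \ S, w ω + ∑ ω ∈ S, w ω := (Finset.sum_sdiff hsub).symm
      have hle : ∑ ω ∈ b.toFinset \ S, w ω ≤ (b.toFinset \ S).card * (m + 1) := by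
        have := Finset.sum_le_card_nsmul (b.toFinset \ S) w (m + 1) fun ω hω =>
          hb1 (Set.mem_toFinset.1 (Finset.mem_sdiff.1 hω).1)
        simpa using this
      have hcard : (b.toFinset \ S).card + rk v w m = rk v w (m + 1) := by
        rw [← hc1, ← hc2]
        exact Finset.card_sdiff_add_card_eq_card hsub
      rw [hsum, Finset.sum_range_succ, ← hcard]
      rw [← hcard] at *
      nlinarith

/-- **A basis of small weight.** -/
theorem exists_basis (v : Ω → E) (w : Ω → ℕ) (d : ℕ)
    (hd : finrank ℝ (Submodule.span ℝ (Set.range v)) = d)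
    (hflat : ∀ (W : Submodule ℝ E) (T : Finset Ω), W ≤ Submodule.span ℝ (Set.range v) →
      (∀ ω ∈ T, v ω ∈ W) → d * T.card ≤ Fintype.card Ω * finrank ℝ W) :
    ∃ S : Finset Ω, S.card = d ∧
      Submodule.span ℝ (v '' (S : Set Ω)) = Submodule.span ℝ (Set.range v) ∧
      Fintype.card Ω * ∑ ω ∈ S, w ω ≤ d * ∑ ω, w ω := by
  classical
  set M := Finset.univ.sup w with hM
  have hall : {ω | w ω ≤ M} = Set.univ := by
    ext ω
    simp only [Set.mem_setOf_eq, Set.mem_univ, iff_true]
    exact Finset.le_sup (Finset.mem_univ ω)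
  obtain ⟨S, hS1, hS2, hS3, hS4⟩ := greedy v w M
  rw [hall, Set.image_univ] at hS3
  have hcard : S.card = d := by rw [← finrank_indep v S hS2, hS3, hd]
  have hr : rk v w M = d := by
    rw [rk, hall, Set.image_univ, hd]
  refine ⟨S, hcard, hS3, ?_⟩
  rw [hr] at hS4
  -- the flats
  have hfl : ∀ i, d * (Finset.univ.filter fun ω => w ω ≤ i).card ≤ Fintype.card Ω * rk v w i := by
    intro i
    refine hflat _ _ (Submodule.span_mono (Set.image_subset_range _ _)) fun ω hω => ?_
    exact Submodule.subset_span ⟨ω, (Finset.mem_filter.1 hω).2, rfl⟩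
  have hw : ∀ ω, w ω + ∑ i ∈ Finset.range M, (if w ω ≤ i then 1 else 0) = M := by
    intro ω
    have h1 : w ω ≤ M := Finset.le_sup (Finset.mem_univ ω)
    rw [← Finset.card_filter]
    have h2 : (Finset.range M).filter (fun i => w ω ≤ i) = Finset.Ico (w ω) M := by
      ext i
      simp only [Finset.mem_filter, Finset.mem_range, Finset.mem_Ico]
      tauto
    rw [h2, Nat.card_Ico]
    omega
  have hsum : ∑ ω, w ω + ∑ i ∈ Finset.range M, (Finset.univ.filter fun ω => w ω ≤ i).card =
      Fintype.card Ω * M := by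
    have h1 : ∑ ω, (w ω + ∑ i ∈ Finset.range M, (if w ω ≤ i then 1 else 0)) =
        ∑ _ω : Ω, M := Finset.sum_congr rfl fun ω _ => hw ω
    rw [Finset.sum_add_distrib, Finset.sum_comm] at h1
    simp only [Finset.sum_const, Finset.card_univ, smul_eq_mul] at h1
    rw [← h1]
    congr 1
    refine Finset.sum_congr rfl fun i _ => ?_
    rw [Finset.card_filter]
  have h5 : d * ∑ i ∈ Finset.range M, (Finset.univ.filter fun ω => w ω ≤ i).card ≤
      Fintype.card Ω * ∑ i ∈ Finset.range M, rk v w i := by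
    rw [Finset.mul_sum, Finset.mul_sum]
    exact Finset.sum_le_sum fun i _ => hfl i
  have h6 := Nat.mul_le_mul_left (Fintype.card Ω) hS4
  have h7 : d * (∑ ω, w ω + ∑ i ∈ Finset.range M, (Finset.univ.filter fun ω => w ω ≤ i).card) =
      d * (Fintype.card Ω * M) := by rw [hsum]
  rw [mul_add] at h6 h7
  have h8 : Fintype.card Ω * (M * d) = d * (Fintype.card Ω * M) := by ring
  omega

end Pool.Agent.H58.SK
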