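import Pool.Agent.H58.SK.Schur
import Pool.Agent.H58.SK.Greedy
import Pool.Agent.H58.SK.Count

/-!
# Bases adapted to symmetric configurations
-/

set_option autoImplicit false
set_option linter.unusedSectionVars false

open scoped InnerProductSpace
open Module

namespace Pool.Agent.H58.SK

variable {E : Type*} [NormedAddCommGroup E] [InnerProductSpace ℝ E] [FiniteDimensional ℝ E]

lemma norm_sum_sq {ι : Type*} (s : Finset ι) (v : ι → E)
    (hv : ∀ i j, i ≠ j → ⟪v i, v j⟫_ℝ = 0) : ‖∑ i ∈ s, v i‖ ^ 2 = ∑ i ∈ s, ‖v i‖ ^ 2 := by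
  classical
  induction s using Finset.induction_on with
  | empty => simp
  | insert i s hi ih =>
    rw [Finset.sum_insert hi, Finset.sum_insert hi, norm_add_sq_real, ih, inner_sum]
    have : ∑ j ∈ s, ⟪v i, v j⟫_ℝ = 0 :=
      Finset.sum_eq_zero fun j hj => hv i j fun h => hi (h ▸ hj)
    rw [this]
    ring

section family

variable {ι : Type} [Fintype ι] (U : ι → Submodule ℝ E)

/-- the sum of the spaces of the family -/
def tot : Submodule ℝ E := ⨆ i, U i

lemma mem_perp (y : E) : y ∈ (tot U)ᗮ ↔ ∀ i, ∀ u ∈ U i, ⟪u, y⟫_ℝ = 0 := by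
  rw [tot, ← Submodule.iInf_orthogonal, Submodule.mem_iInf]
  exact Iff.rfl

lemma rest_mem (hU : ∀ i j, i ≠ j → U i ⟂ U j) (x : E) :
    x - ∑ i, (U i).starProjection x ∈ (tot U)ᗮ := by
  rw [mem_perp]
  intro j u hu
  rw [inner_sub_right, inner_sum, Finset.sum_eq_single j]
  · rw [← inner_sub_right]
    have h := Submodule.starProjection_inner_eq_zero (K := U j) x u hu
    rw [real_inner_comm]
    exact h
  · intro i _ hij
    have h := hU j i hij.symm
    rw [Submodule.isOrtho_iff_inner_eq] at h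
    exact h u hu _ (Submodule.starProjection_apply_mem _ _)
  · intro h
    exact absurd (Finset.mem_univ j) h

lemma bessel (hU : ∀ i j, i ≠ j → U i ⟂ U j) (x : E) :
    ∑ i, ‖(U i).starProjection x‖ ^ 2 ≤ ‖x‖ ^ 2 := by
  have h1 : ‖∑ i, (U i).starProjection x‖ ^ 2 = ∑ i, ‖(U i).starProjection x‖ ^ 2 := by
    apply norm_sum_sq
    intro i j hij
    have h := hU i j hij
    rw [Submodule.isOrtho_iff_inner_eq] at h
    exact h _ (Submodule.starProjection_apply_mem _ _) _ (Submodule.starProjection_apply_mem _ _)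
  have h2 : ⟪∑ i, (U i).starProjection x, x - ∑ i, (U i).starProjection x⟫_ℝ = 0 := by
    have h3 := rest_mem U hU x
    rw [Submodule.mem_orthogonal] at h3
    apply h3
    apply Submodule.sum_mem
    intro i _
    exact Submodule.mem_iSup_of_mem i (Submodule.starProjection_apply_mem _ _)
  have h4 : ‖x‖ ^ 2 = ‖∑ i, (U i).starProjection x‖ ^ 2 +
      ‖x - ∑ i, (U i).starProjection x‖ ^ 2 := by
    have h5 : x = ∑ i, (U i).starProjection x + (x - ∑ i, (U i).starProjection x) := by abel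
    conv_lhs => rw [h5]
    rw [norm_add_sq_real, h2]
    ring
  rw [h4, h1]
  have : 0 ≤ ‖x - ∑ i, (U i).starProjection x‖ ^ 2 := by positivity
  linarith

lemma finrank_tot (hU : ∀ i j, i ≠ j → U i ⟂ U j) :
    finrank ℝ (tot U) = ∑ i, finrank ℝ (U i) := by
  classical
  have h : ∀ s : Finset ι, finrank ℝ ↥(s.sup U) = ∑ i ∈ s, finrank ℝ (U i) := by
    intro s
    induction s using Finset.induction_on with
    | empty => simp
    | insert i s hi ih =>
      rw [Finset.sup_insert, Finset.sum_insert hi, ← ih]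
      have h1 : U i ⟂ s.sup U := by
        rw [Submodule.isOrtho_iff_le]
        have h2 : s.sup U ≤ (U i)ᗮ := by
          apply Finset.sup_le
          intro j hj
          have : i ≠ j := fun h => hi (h ▸ hj)
          exact (hU j i this.symm)
        intro x hx
        rw [Submodule.mem_orthogonal]
        intro y hy
        have := h2 hy
        rw [Submodule.mem_orthogonal] at this
        rw [real_inner_comm]
        exact this x hx
      have h3 := Submodule.finrank_sup_add_finrank_inf_eq (U i) (s.sup U)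
      rw [(disjoint_iff.1 h1.disjoint), finrank_bot] at h3
      omega
  rw [tot, ← h Finset.univ, Finset.sup_univ_eq_iSup]

variable {G : Type} [Group G] [Fintype G] (ρ : G →* (E ≃ₗᵢ[ℝ] E))

/-- the sum over `γ` of the squares of the displacements by `γ g γ⁻¹` -/
lemma sum_move_all (hU : ∀ i j, i ≠ j → U i ⟂ U j) (hI : ∀ i, Irr ρ (U i)) (g : G)
    (hg : ∀ x ∈ (tot U)ᗮ, ρ g x = x) (x : E) :
    ∑ γ, ‖ρ g (ρ γ⁻¹ x) - ρ γ⁻¹ x‖ ^ 2 =
      ∑ i, Fintype.card G * (hs (ρ g) (U i) / finrank ℝ (U i)) *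
        ‖(U i).starProjection x‖ ^ 2 := by
  have h1 : ∀ γ : G, ‖ρ g (ρ γ⁻¹ x) - ρ γ⁻¹ x‖ ^ 2 = ∑ i,
      ‖ρ g (ρ γ⁻¹ ((U i).starProjection x)) - ρ γ⁻¹ ((U i).starProjection x)‖ ^ 2 := by
    intro γ
    have h2 : ρ g (ρ γ⁻¹ x) - ρ γ⁻¹ x = ∑ i,
        (ρ g (ρ γ⁻¹ ((U i).starProjection x)) - ρ γ⁻¹ ((U i).starProjection x)) := by
      have h3 : x = (x - ∑ i, (U i).starProjection x) + ∑ i, (U i).starProjection x := by abel
      have h4 : ρ γ⁻¹ (x - ∑ i, (U i).starProjection x) ∈ (tot U)ᗮ := by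
        have h5 := rest_mem U hU x
        rw [mem_perp] at h5 ⊢
        intro i u hu
        rw [real_inner_comm, inner_rho, inv_inv, real_inner_comm]
        exact h5 i _ ((hI i).2.1 γ u hu)
      conv_lhs => rw [h3]
      rw [map_add, map_add, hg _ h4, map_sum, map_sum, Finset.sum_sub_distrib]
      abel
    rw [h2]
    apply norm_sum_sq
    intro i j hij
    have h := hU i j hij
    rw [Submodule.isOrtho_iff_inner_eq] at h
    have h7 : ∀ i, ρ g (ρ γ⁻¹ ((U i).starProjection x)) - ρ γ⁻¹ ((U i).starProjection x) ∈ U i := by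
      intro i
      have h8 := (hI i).2.1 γ⁻¹ _ (Submodule.starProjection_apply_mem (U i) x)
      exact (U i).sub_mem ((hI i).2.1 g _ h8) h8
    exact h _ (h7 i) _ (h7 j)
  rw [Finset.sum_congr rfl fun γ _ => h1 γ, Finset.sum_comm]
  refine Finset.sum_congr rfl fun i _ => ?_
  have h9 := sum_move (hI i) g (Submodule.starProjection_apply_mem (U i) x)
  have hd : (finrank ℝ (U i) : ℝ) ≠ 0 := by
    have : finrank ℝ (U i) ≠ 0 := fun h => (hI i).1 (Submodule.finrank_eq_zero.1 h)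
    exact_mod_cast this
  field_simp
  linarith

/-- for an irreducible subspace: a basis in the orbit of `e` of small weight -/
lemma orbit_basis {V : Submodule ℝ E} (hV : Irr ρ V) {e : E} (he : e ∈ V) (he1 : ‖e‖ = 1)
    (w : G → ℕ) : ∃ S : Finset G, S.card = finrank ℝ V ∧
      Submodule.span ℝ ((fun γ => ρ γ e) '' (S : Set G)) = V ∧
      Fintype.card G * ∑ γ ∈ S, w γ ≤ finrank ℝ V * ∑ γ, w γ := by
  have hspan : Submodule.span ℝ (Set.range fun γ => ρ γ e) = V := by
    have hle : Submodule.span ℝ (Set.range fun γ => ρ γ e) ≤ V := by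
      rw [Submodule.span_le]
      rintro _ ⟨γ, rfl⟩
      exact hV.2.1 γ e he
    rcases hV.2.2 _ hle (by
      intro δ u hu
      have h1 : (Submodule.span ℝ (Set.range fun γ => ρ γ e)).map
          ((ρ δ).toLinearEquiv : E →ₗ[ℝ] E) ≤ Submodule.span ℝ (Set.range fun γ => ρ γ e) := by
        rw [Submodule.map_span, Submodule.span_le]
        rintro _ ⟨_, ⟨γ, rfl⟩, rfl⟩
        apply Submodule.subset_span
        refine ⟨δ * γ, ?_⟩
        simp only [map_mul]
        rfl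
      exact h1 ⟨u, hu, rfl⟩) with h | h
    · exfalso
      have h2 : e ∈ Submodule.span ℝ (Set.range fun γ => ρ γ e) :=
        Submodule.subset_span ⟨1, by simp only [map_one, one_app]⟩
      rw [h, Submodule.mem_bot] at h2
      rw [h2, norm_zero] at he1
      exact zero_ne_one he1
    · exact h
  obtain ⟨S, h1, h2, h3⟩ := exists_basis (fun γ => ρ γ e) w (finrank ℝ V) (by rw [hspan])
    (by
      intro W T hW hT
      rw [hspan] at hW
      exact card_flat hV he he1 W hW T hT)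
  exact ⟨S, h1, h2.trans hspan, h3⟩

/-- a vector which is fixed by `γ g γ⁻¹` is orthogonal to `γ (g u - u)` -/
lemma inner_eq_zero (g γ : G) (x u : E) (h : ρ (γ * g * γ⁻¹) x = x) :
    ⟪x, ρ γ (ρ g u - u)⟫_ℝ = 0 := by
  have h1 : ρ g⁻¹ (ρ γ⁻¹ x) = ρ γ⁻¹ x := by
    have h2 : ρ γ⁻¹ x = ρ γ⁻¹ (ρ (γ * g * γ⁻¹) x) := by rw [h]
    conv_lhs => rw [h2]
    rw [← mul_app, ← mul_app, ← map_mul, ← map_mul]
    congr 2
    group
  rw [real_inner_comm, inner_rho, inner_sub_left, inner_rho ρ g, h1, sub_self]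

/-- `x` is moved by `γ g γ⁻¹` -/
def Mov (g γ : G) (x : E) : Prop := ρ (γ * g * γ⁻¹) x ≠ x

lemma norm_mov (g γ : G) (x : E) :
    ‖ρ (γ * g * γ⁻¹) x - x‖ = ‖ρ g (ρ γ⁻¹ x) - ρ γ⁻¹ x‖ := by
  have h1 : ρ (γ * g * γ⁻¹) x - x = ρ γ (ρ g (ρ γ⁻¹ x) - ρ γ⁻¹ x) := by
    rw [map_sub, ← mul_app, ← mul_app, ← mul_app, ← map_mul, ← map_mul, ← map_mul,
      mul_inv_cancel, map_one, one_app]
  rw [h1, LinearIsometryEquiv.norm_map]

open Classical in
/-- the number of the pairs of `γ` and a point moved by `γ g γ⁻¹` -/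
lemma sum_weights (hU : ∀ i j, i ≠ j → U i ⟂ U j) (hI : ∀ i, Irr ρ (U i)) (g : G)
    (hg : ∀ x ∈ (tot U)ᗮ, ρ g x = x) {X : Finset E} {D : ℝ}
    (hXs : ∀ x ∈ X, ∀ y ∈ X, x ≠ y → D ≤ ‖x - y‖ ^ 2) (hGX : ∀ γ, ∀ x ∈ X, ρ γ x ∈ X) :
    D * ∑ γ : G, ((X.filter fun x => Mov ρ g γ x).card : ℝ) ≤
      ∑ x ∈ X, ∑ i, Fintype.card G * (hs (ρ g) (U i) / finrank ℝ (U i)) *
        ‖(U i).starProjection x‖ ^ 2 := by
  have h1 : ∀ γ : G, D * ((X.filter fun x => Mov ρ g γ x).card : ℝ) ≤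
      ∑ x ∈ X, ‖ρ g (ρ γ⁻¹ x) - ρ γ⁻¹ x‖ ^ 2 := by
    intro γ
    rw [mul_comm, ← nsmul_eq_mul]
    have h2 : ∀ x ∈ X.filter fun x => Mov ρ g γ x, D ≤ ‖ρ g (ρ γ⁻¹ x) - ρ γ⁻¹ x‖ ^ 2 := by
      intro x hx
      rw [Finset.mem_filter] at hx
      rw [← norm_mov]
      exact hXs _ (hGX _ x hx.1) x hx.1 hx.2
    refine (Finset.card_nsmul_le_sum _ _ _ h2).trans ?_
    exact Finset.sum_le_sum_of_subset_of_nonneg (Finset.filter_subset _ _)
      fun _ _ _ => by positivity
  rw [Finset.mul_sum]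
  refine (Finset.sum_le_sum fun γ _ => h1 γ).trans (le_of_eq ?_)
  rw [Finset.sum_comm]
  exact Finset.sum_congr rfl fun x _ => sum_move_all U ρ hU hI g hg x

open Classical in
/-- **Adapted vectors.** There are linearly independent vectors which span the sum of the spaces of
the family and of which only few, in the mean, are not orthogonal to the points of the
configuration. -/
theorem adapted (hU : ∀ i j, i ≠ j → U i ⟂ U j) (hI : ∀ i, Irr ρ (U i)) (g : ι → G)
    (hg : ∀ j, ∀ x ∈ (tot U)ᗮ, ρ (g j) x = x) (hm : ∀ j, ∃ u ∈ U j, ρ (g j) u ≠ u)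
    {X : Finset E} {D c : ℝ} (hD : 0 < D) (hc0 : 0 ≤ c) (hX1 : ∀ x ∈ X, ‖x‖ = 1)
    (hXs : ∀ x ∈ X, ∀ y ∈ X, x ≠ y → D ≤ ‖x - y‖ ^ 2) (hGX : ∀ γ, ∀ x ∈ X, ρ γ x ∈ X)
    (hc : ∀ i, ∑ j, finrank ℝ (U j) * hs (ρ (g j)) (U i) ≤ D * c * finrank ℝ (U i)) :
    ∃ (B : Type) (_ : Fintype B) (v : B → E),
      finrank ℝ (Submodule.span ℝ (Set.range v)) = Fintype.card B ∧
      Fintype.card B = finrank ℝ (tot U) ∧
      ∑ x ∈ X, ((Finset.univ.filter fun b => ⟪x, v b⟫_ℝ ≠ 0).card : ℝ) ≤ c * X.card := by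
  have hdim : ∀ i, (0 : ℝ) < finrank ℝ (U i) := by
    intro i
    have : finrank ℝ (U i) ≠ 0 := fun h => (hI i).1 (Submodule.finrank_eq_zero.1 h)
    exact_mod_cast Nat.pos_of_ne_zero this
  -- the unit vectors
  choose u hu hu1 using hm
  have hw : ∀ j, ρ (g j) (u j) - u j ≠ 0 := fun j => sub_ne_zero.2 (hu1 j)
  set e : ι → E := fun j => (‖ρ (g j) (u j) - u j‖)⁻¹ • (ρ (g j) (u j) - u j) with he
  have he1 : ∀ j, ‖e j‖ = 1 := by
    intro j
    rw [he]
    simp only [norm_smul, norm_inv, norm_norm]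
    exact inv_mul_cancel₀ (norm_ne_zero_iff.2 (hw j))
  have heU : ∀ j, e j ∈ U j := fun j =>
    (U j).smul_mem _ ((U j).sub_mem ((hI j).2.1 _ _ (hu j)) (hu j))
  -- the weights
  set w : ι → G → ℕ := fun j γ => (X.filter fun x => Mov ρ (g j) γ x).card with hwdef
  have hb := fun j => orbit_basis ρ (hI j) (heU j) (he1 j) (w j)
  choose S hS1 hS2 hS3 using hb
  have hGpos : (0 : ℝ) < Fintype.card G := by exact_mod_cast Fintype.card_pos
  have htotal : ∑ j, ∑ γ ∈ S j, (w j γ : ℝ) ≤ c * X.card := by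
    have h1 : ∀ j, (Fintype.card G : ℝ) * ∑ γ ∈ S j, (w j γ : ℝ) ≤
        finrank ℝ (U j) * ∑ γ, (w j γ : ℝ) := by
      intro j
      exact_mod_cast hS3 j
    have h2 : ∀ j, D * ∑ γ, (w j γ : ℝ) ≤ ∑ x ∈ X, ∑ i, Fintype.card G *
        (hs (ρ (g j)) (U i) / finrank ℝ (U i)) * ‖(U i).starProjection x‖ ^ 2 := fun j =>
      sum_weights U ρ hU hI (g j) (hg j) hXs hGX
    have h3 : (Fintype.card G : ℝ) * (D * ∑ j, ∑ γ ∈ S j, (w j γ : ℝ)) ≤
        Fintype.card G * (D * (c * X.card)) := by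
      calc (Fintype.card G : ℝ) * (D * ∑ j, ∑ γ ∈ S j, (w j γ : ℝ))
          = D * ∑ j, (Fintype.card G : ℝ) * ∑ γ ∈ S j, (w j γ : ℝ) := by
            rw [← Finset.mul_sum]
            ring
        _ ≤ D * ∑ j, finrank ℝ (U j) * ∑ γ, (w j γ : ℝ) :=
            mul_le_mul_of_nonneg_left (Finset.sum_le_sum fun j _ => h1 j) hD.le
        _ = ∑ j, finrank ℝ (U j) * (D * ∑ γ, (w j γ : ℝ)) := by
            rw [Finset.mul_sum]
            exact Finset.sum_congr rfl fun j _ => by ring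
        _ ≤ ∑ j, finrank ℝ (U j) * ∑ x ∈ X, ∑ i, Fintype.card G *
              (hs (ρ (g j)) (U i) / finrank ℝ (U i)) * ‖(U i).starProjection x‖ ^ 2 :=
            Finset.sum_le_sum fun j _ => mul_le_mul_of_nonneg_left (h2 j) (hdim j).le
        _ = ∑ x ∈ X, ∑ i, (Fintype.card G : ℝ) * ‖(U i).starProjection x‖ ^ 2 *
              ((∑ j, finrank ℝ (U j) * hs (ρ (g j)) (U i)) / finrank ℝ (U i)) := by
            simp only [Finset.mul_sum, Finset.sum_div]
            rw [Finset.sum_comm]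
            refine Finset.sum_congr rfl fun x _ => ?_
            rw [Finset.sum_comm]
            refine Finset.sum_congr rfl fun i _ => Finset.sum_congr rfl fun j _ => ?_
            ring
        _ ≤ ∑ x ∈ X, ∑ i, (Fintype.card G : ℝ) * ‖(U i).starProjection x‖ ^ 2 * (D * c) := by
            refine Finset.sum_le_sum fun x _ => Finset.sum_le_sum fun i _ => ?_
            apply mul_le_mul_of_nonneg_left _ (by positivity)
            rw [div_le_iff₀ (hdim i)]
            exact hc i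
        _ = ∑ x ∈ X, (Fintype.card G : ℝ) * (D * c) * ∑ i, ‖(U i).starProjection x‖ ^ 2 := by
            refine Finset.sum_congr rfl fun x _ => ?_
            rw [Finset.mul_sum]
            exact Finset.sum_congr rfl fun i _ => by ring
        _ ≤ ∑ x ∈ X, (Fintype.card G : ℝ) * (D * c) * 1 := by
            refine Finset.sum_le_sum fun x hx => ?_
            apply mul_le_mul_of_nonneg_left _ (by positivity)
            have h6 := bessel U hU x
            rw [hX1 x hx] at h6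
            linarith
        _ = Fintype.card G * (D * (c * X.card)) := by
            rw [Finset.sum_const, nsmul_eq_mul]
            ring
    have h4 := le_of_mul_le_mul_left h3 hGpos
    exact le_of_mul_le_mul_left h4 hD
  have hcard : Fintype.card (Σ j, {γ // γ ∈ S j}) = ∑ i, finrank ℝ (U i) := by
    rw [Fintype.card_sigma]
    refine Finset.sum_congr rfl fun j _ => ?_
    rw [Fintype.card_coe, hS1 j]
  have hspan : Submodule.span ℝ (Set.range fun b : (Σ j, {γ // γ ∈ S j}) =>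
      ρ b.2.1 (e b.1)) = tot U := by
    apply le_antisymm
    · rw [Submodule.span_le]
      rintro _ ⟨b, rfl⟩
      exact Submodule.mem_iSup_of_mem b.1 ((hI b.1).2.1 _ _ (heU b.1))
    · rw [tot]
      apply iSup_le
      intro j
      rw [← hS2 j]
      apply Submodule.span_mono
      rintro _ ⟨γ, hγ, rfl⟩
      exact ⟨⟨j, ⟨γ, hγ⟩⟩, rfl⟩
  refine ⟨Σ j, {γ // γ ∈ S j}, inferInstance, fun b => ρ b.2.1 (e b.1), ?_, ?_, ?_⟩
  · rw [hspan, finrank_tot U hU, ← hcard]
  · rw [finrank_tot U hU, ← hcard]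
  · refine le_trans ?_ htotal
    have h5 : ∀ j, ∑ γ ∈ S j, (w j γ : ℝ) = ∑ γ : {γ // γ ∈ S j}, (w j γ : ℝ) := fun j =>
      (Finset.sum_coe_sort (S j) fun γ => (w j γ : ℝ)).symm
    rw [Finset.sum_congr rfl fun j _ => h5 j, ← Fintype.sum_sigma
      (f := fun b : (Σ j, {γ // γ ∈ S j}) => (w b.1 b.2.1 : ℝ))]
    have h6 : ∀ x, ((Finset.univ.filter fun b : (Σ j, {γ // γ ∈ S j}) =>
        ⟪x, ρ b.2.1 (e b.1)⟫_ℝ ≠ 0).card : ℝ) =
        ∑ b : (Σ j, {γ // γ ∈ S j}), if ⟪x, ρ b.2.1 (e b.1)⟫_ℝ ≠ 0 then (1 : ℝ) else 0 := by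
      intro x
      rw [Finset.card_filter]
      push_cast
      rfl
    rw [Finset.sum_congr rfl fun x _ => h6 x, Finset.sum_comm]
    refine Finset.sum_le_sum fun b _ => ?_
    rw [hwdef]
    simp only [Finset.card_filter]
    push_cast
    refine Finset.sum_le_sum fun x _ => ?_
    by_cases hM : Mov ρ (g b.1) b.2.1 x
    · rw [if_pos hM]
      split_ifs <;> norm_num
    · rw [if_neg hM]
      have h7 : ⟪x, ρ b.2.1 (e b.1)⟫_ℝ = 0 := by
        rw [he]
        simp only [map_smul, inner_smul_right]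
        rw [inner_eq_zero ρ (g b.1) b.2.1 x (u b.1) (not_not.1 hM), mul_zero]
      rw [if_neg (not_not.2 h7)]

end family

end Pool.Agent.H58.SK
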