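import Pool.Agent.H58.SK.Cor

/-!
# Hilbert-Schmidt norms and orthonormal families
-/

set_option autoImplicit false
set_option linter.unusedSectionVars false

open scoped InnerProductSpace
open Module

namespace Pool.Agent.H58.SK

variable {E : Type*} [NormedAddCommGroup E] [InnerProductSpace ℝ E] [FiniteDimensional ℝ E]

lemma hs_onb (g : E ≃ₗᵢ[ℝ] E) (U : Submodule ℝ E) {ι : Type} [Fintype ι]
    (b : OrthonormalBasis ι ℝ U) : hs g U = ∑ i, ‖g (b i) - b i‖ ^ 2 := by
  have key : ∀ {κ : Type} [Fintype κ] (b : OrthonormalBasis κ ℝ U),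
      LinearMap.trace ℝ U
        ((((g.toLinearEquiv : E →ₗ[ℝ] E) - LinearMap.id) ∘ₗ U.subtype).adjoint ∘ₗ
          (((g.toLinearEquiv : E →ₗ[ℝ] E) - LinearMap.id) ∘ₗ U.subtype)) =
        ∑ i, ‖g (b i) - b i‖ ^ 2 := by
    intro κ _ b
    rw [LinearMap.trace_eq_sum_inner _ b]
    refine Finset.sum_congr rfl fun i _ => ?_
    rw [LinearMap.comp_apply, LinearMap.adjoint_inner_right, real_inner_self_eq_norm_sq]
    rfl
  rw [hs, ← key (stdOrthonormalBasis ℝ U), ← key b]

/-- the orthonormal basis of the span -/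
noncomputable def onbSpan {d : ℕ} {v : Fin d → E} (hv : Orthonormal ℝ v) :
    OrthonormalBasis (Fin d) ℝ (Submodule.span ℝ (Set.range v)) :=
  OrthonormalBasis.mk (v := fun i => ⟨v i, Submodule.subset_span ⟨i, rfl⟩⟩)
    (by
      rw [orthonormal_iff_ite] at hv ⊢
      exact hv)
    (by
      rintro ⟨x, hx⟩ _
      induction hx using Submodule.span_induction with
      | mem x hx =>
        obtain ⟨i, rfl⟩ := hx
        exact Submodule.subset_span ⟨i, rfl⟩
      | zero => exact Submodule.zero_mem _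
      | add x y hx hy h1 h2 => exact Submodule.add_mem _ (h1 trivial) (h2 trivial)
      | smul a x hx h => exact Submodule.smul_mem _ a (h trivial))

lemma onbSpan_apply {d : ℕ} {v : Fin d → E} (hv : Orthonormal ℝ v) (i : Fin d) :
    (onbSpan hv i : E) = v i := by
  rw [onbSpan, OrthonormalBasis.coe_mk]

lemma hs_span (g : E ≃ₗᵢ[ℝ] E) {d : ℕ} {v : Fin d → E} (hv : Orthonormal ℝ v) :
    hs g (Submodule.span ℝ (Set.range v)) = ∑ i, ‖g (v i) - v i‖ ^ 2 := by
  rw [hs_onb g _ (onbSpan hv)]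
  refine Finset.sum_congr rfl fun i _ => ?_
  rw [onbSpan_apply]

lemma finrank_onb {d : ℕ} {v : Fin d → E} (hv : Orthonormal ℝ v) :
    finrank ℝ (Submodule.span ℝ (Set.range v)) = d := by
  rw [finrank_eq_card_basis (onbSpan hv).toBasis, Fintype.card_fin]

lemma on_fib {k : ℕ} {d : Fin k → ℕ} {v : ∀ i, Fin (d i) → E}
    (hv : Orthonormal ℝ (fun p : Σ i, Fin (d i) => v p.1 p.2)) (i : Fin k) : Orthonormal ℝ (v i) :=
  hv.comp (fun q : Fin (d i) => (⟨i, q⟩ : Σ i, Fin (d i))) fun p q h => by simpa using h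

lemma on_orth {k : ℕ} {d : Fin k → ℕ} {v : ∀ i, Fin (d i) → E}
    (hv : Orthonormal ℝ (fun p : Σ i, Fin (d i) => v p.1 p.2)) (i j : Fin k) (hij : i ≠ j) :
    Submodule.span ℝ (Set.range (v i)) ⟂ Submodule.span ℝ (Set.range (v j)) := by
  rw [Submodule.isOrtho_span]
  rintro _ ⟨p, rfl⟩ _ ⟨q, rfl⟩
  exact hv.2 (i := ⟨i, p⟩) (j := ⟨j, q⟩) fun h => hij (congrArg Sigma.fst h)

lemma finrank_iSup {k : ℕ} {d : Fin k → ℕ} {v : ∀ i, Fin (d i) → E}
    (hv : Orthonormal ℝ (fun p : Σ i, Fin (d i) => v p.1 p.2)) :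
    finrank ℝ ↥(⨆ i, Submodule.span ℝ (Set.range (v i))) = ∑ i, d i := by
  have h1 : (⨆ i, Submodule.span ℝ (Set.range (v i))) =
      Submodule.span ℝ (Set.range (fun p : Σ i, Fin (d i) => v p.1 p.2)) := by
    rw [← Submodule.span_iUnion]
    congr 1
    ext x
    simp
  rw [h1, finrank_span_eq_card hv.linearIndependent, Fintype.card_sigma]
  simp

end Pool.Agent.H58.SK
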