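import Mathlib

/-!
# Averages over finite groups of isometries

Schur's lemma in the form of averages of squares of inner products.
-/

set_option autoImplicit false
set_option linter.unusedSectionVars false

open scoped InnerProductSpace
open Module

namespace Pool.Agent.H58.SK

variable {E : Type*} [NormedAddCommGroup E] [InnerProductSpace ℝ E] [FiniteDimensional ℝ E]
variable {G : Type*} [Group G] [Fintype G]

/-- the subspace `U` is mapped into itself by the isometries `ρ γ` -/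
def Inv (ρ : G →* (E ≃ₗᵢ[ℝ] E)) (U : Submodule ℝ E) : Prop := ∀ γ, ∀ u ∈ U, ρ γ u ∈ U

/-- the subspace `U` is invariant and irreducible -/
def Irr (ρ : G →* (E ≃ₗᵢ[ℝ] E)) (U : Submodule ℝ E) : Prop :=
  U ≠ ⊥ ∧ Inv ρ U ∧ ∀ W : Submodule ℝ E, W ≤ U → Inv ρ W → W = ⊥ ∨ W = U

lemma mul_app (f g : E ≃ₗᵢ[ℝ] E) (x : E) : (f * g) x = f (g x) := rfl

lemma one_app (x : E) : (1 : E ≃ₗᵢ[ℝ] E) x = x := rfl

lemma inner_rho (ρ : G →* (E ≃ₗᵢ[ℝ] E)) (γ : G) (x y : E) :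
    ⟪ρ γ x, y⟫_ℝ = ⟪x, ρ γ⁻¹ y⟫_ℝ := by
  have h : ρ γ (ρ γ⁻¹ y) = y := by
    rw [← mul_app, ← map_mul, mul_inv_cancel, map_one, one_app]
  calc ⟪ρ γ x, y⟫_ℝ = ⟪ρ γ x, ρ γ (ρ γ⁻¹ y)⟫_ℝ := by rw [h]
    _ = _ := LinearIsometryEquiv.inner_map_map _ _ _

/-- the operator `u ↦ ∑ ⟨γ e, u⟩ γ e` -/
noncomputable def avg (ρ : G →* (E ≃ₗᵢ[ℝ] E)) (e : E) : E →ₗ[ℝ] E :=
  ∑ γ, (innerₛₗ ℝ (ρ γ e)).smulRight (ρ γ e)

lemma avg_apply (ρ : G →* (E ≃ₗᵢ[ℝ] E)) (e u : E) :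
    avg ρ e u = ∑ γ, ⟪ρ γ e, u⟫_ℝ • ρ γ e := by
  simp [avg]

lemma avg_comm (ρ : G →* (E ≃ₗᵢ[ℝ] E)) (e u : E) (δ : G) :
    avg ρ e (ρ δ u) = ρ δ (avg ρ e u) := by
  rw [avg_apply, avg_apply, map_sum]
  refine (Fintype.sum_equiv (Equiv.mulLeft δ) _ _ fun γ => ?_).symm
  rw [Equiv.coe_mulLeft, map_mul, mul_app, map_smul,
    LinearIsometryEquiv.inner_map_map]

lemma avg_symm (ρ : G →* (E ≃ₗᵢ[ℝ] E)) (e : E) : (avg ρ e).IsSymmetric := by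
  intro u v
  rw [avg_apply, avg_apply, sum_inner, inner_sum]
  refine Finset.sum_congr rfl fun γ _ => ?_
  rw [inner_smul_left, inner_smul_right, real_inner_comm u]
  simp only [conj_trivial]
  ring

lemma inner_avg (ρ : G →* (E ≃ₗᵢ[ℝ] E)) (e u : E) :
    ⟪avg ρ e u, u⟫_ℝ = ∑ γ, ⟪u, ρ γ e⟫_ℝ ^ 2 := by
  rw [avg_apply, sum_inner]
  refine Finset.sum_congr rfl fun γ _ => ?_
  rw [inner_smul_left, real_inner_comm u]
  simp only [conj_trivial]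
  ring

lemma avg_mem {ρ : G →* (E ≃ₗᵢ[ℝ] E)} {U : Submodule ℝ E} (hU : Inv ρ U) {e : E} (he : e ∈ U)
    (u : E) : avg ρ e u ∈ U := by
  rw [avg_apply]
  exact Submodule.sum_mem _ fun γ _ => U.smul_mem _ (hU γ e he)

/-- **Schur's lemma**: the operator is a scalar on an irreducible subspace. -/
lemma schur {ρ : G →* (E ≃ₗᵢ[ℝ] E)} {U : Submodule ℝ E} (hU : Irr ρ U) {e : E} (he : e ∈ U) :
    ∃ μ : ℝ, ∀ u ∈ U, avg ρ e u = μ • u := by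
  obtain ⟨hne, hinv, hirr⟩ := hU
  have hmap : ∀ v ∈ U, avg ρ e v ∈ U := fun v _ => avg_mem hinv he v
  have hnt : Nontrivial U := Submodule.nontrivial_iff_ne_bot.2 hne
  have hs := (avg_symm ρ e).restrict_invariant hmap
  obtain ⟨v, hv⟩ := hs.hasEigenvalue_iSup_of_finiteDimensional.exists_hasEigenvector
  set μ : ℝ := (⨆ x : { x : U // x ≠ 0 }, RCLike.re ⟪(avg ρ e).restrict hmap x, (x : U)⟫_ℝ /
    ‖(x : U)‖ ^ 2 : ℝ) with hμ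
  have hv1 : avg ρ e (v : E) = μ • (v : E) := by
    have h := congrArg (fun z : U => (z : E)) hv.apply_eq_smul
    simpa using h
  have hv0 : (v : E) ≠ 0 := fun h => hv.2 (Subtype.ext h)
  set W : Submodule ℝ E := U ⊓ LinearMap.ker (avg ρ e - μ • LinearMap.id) with hW
  have hmem : ∀ u, u ∈ W ↔ u ∈ U ∧ avg ρ e u = μ • u := by
    intro u
    rw [hW, Submodule.mem_inf, LinearMap.mem_ker, LinearMap.sub_apply, LinearMap.smul_apply,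
      LinearMap.id_apply, sub_eq_zero]
  have hWinv : Inv ρ W := by
    intro γ u hu
    rw [hmem] at hu ⊢
    refine ⟨hinv γ u hu.1, ?_⟩
    rw [avg_comm, hu.2, map_smul]
  rcases hirr W inf_le_left hWinv with h | h
  · exfalso
    have : (v : E) ∈ W := (hmem _).2 ⟨v.2, hv1⟩
    rw [h, Submodule.mem_bot] at this
    exact hv0 this
  · refine ⟨μ, fun u hu => ?_⟩
    rw [← h, hmem] at hu
    exact hu.2

lemma sum_onb {U : Submodule ℝ E} {ι : Type*} [Fintype ι] (b : OrthonormalBasis ι ℝ U) {x : E}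
    (hx : x ∈ U) : ∑ i, ⟪(b i : E), x⟫_ℝ ^ 2 = ‖x‖ ^ 2 := by
  have h := b.sum_sq_norm_inner_right ⟨x, hx⟩
  have h1 : ‖(⟨x, hx⟩ : U)‖ = ‖x‖ := rfl
  rw [h1] at h
  rw [← h]
  refine Finset.sum_congr rfl fun i _ => ?_
  rw [Real.norm_eq_abs, sq_abs]
  rfl

/-- the average of `⟨u, γ e⟩ ^ 2` -/
theorem sum_inner_sq {ρ : G →* (E ≃ₗᵢ[ℝ] E)} {U : Submodule ℝ E} (hU : Irr ρ U) {e : E}
    (he : e ∈ U) {u : E} (hu : u ∈ U) :
    (finrank ℝ U : ℝ) * ∑ γ, ⟪u, ρ γ e⟫_ℝ ^ 2 = Fintype.card G * ‖e‖ ^ 2 * ‖u‖ ^ 2 := by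
  obtain ⟨μ, hμ⟩ := schur hU he
  have h1 : ∀ v ∈ U, ∑ γ, ⟪v, ρ γ e⟫_ℝ ^ 2 = μ * ‖v‖ ^ 2 := by
    intro v hv
    rw [← inner_avg, hμ v hv, inner_smul_left, real_inner_self_eq_norm_sq]
    simp
  have h2 : (finrank ℝ U : ℝ) * μ = Fintype.card G * ‖e‖ ^ 2 := by
    set b := stdOrthonormalBasis ℝ U
    have h3 : ∑ i, ∑ γ, ⟪(b i : E), ρ γ e⟫_ℝ ^ 2 = ∑ i : Fin (finrank ℝ U), μ := by
      refine Finset.sum_congr rfl fun i _ => ?_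
      rw [h1 _ (b i).2]
      have : ‖(b i : E)‖ = 1 := b.orthonormal.1 i
      rw [this]
      ring
    rw [Finset.sum_comm] at h3
    have h4 : ∀ γ : G, ∑ i, ⟪(b i : E), ρ γ e⟫_ℝ ^ 2 = ‖e‖ ^ 2 := by
      intro γ
      rw [sum_onb b (hU.2.1 γ e he), LinearIsometryEquiv.norm_map]
    rw [Finset.sum_congr rfl fun γ _ => h4 γ] at h3
    simp only [Finset.sum_const, Finset.card_univ, nsmul_eq_mul, Fintype.card_fin] at h3
    linarith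
  rw [h1 u hu, ← h2]
  ring

/-- the squared Hilbert-Schmidt norm of `g - 1` on the subspace `U` -/
noncomputable def hs (g : E ≃ₗᵢ[ℝ] E) (U : Submodule ℝ E) : ℝ :=
  ∑ i, ‖g (stdOrthonormalBasis ℝ U i : E) - (stdOrthonormalBasis ℝ U i : E)‖ ^ 2

lemma hs_nonneg (g : E ≃ₗᵢ[ℝ] E) (U : Submodule ℝ E) : 0 ≤ hs g U :=
  Finset.sum_nonneg fun _ _ => by positivity

/-- the average of `‖(g - 1) γ⁻¹ u‖ ^ 2` -/
theorem sum_move {ρ : G →* (E ≃ₗᵢ[ℝ] E)} {U : Submodule ℝ E} (hU : Irr ρ U) (g : G) {u : E}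
    (hu : u ∈ U) :
    (finrank ℝ U : ℝ) * ∑ γ, ‖ρ g (ρ γ⁻¹ u) - ρ γ⁻¹ u‖ ^ 2 =
      Fintype.card G * hs (ρ g) U * ‖u‖ ^ 2 := by
  set b := stdOrthonormalBasis ℝ U with hb
  have h1 : ∀ z ∈ U, ‖ρ g z - z‖ ^ 2 = ∑ i, ⟪ρ g⁻¹ (b i) - b i, z⟫_ℝ ^ 2 := by
    intro z hz
    rw [← sum_onb b (U.sub_mem (hU.2.1 g z hz) hz)]
    refine Finset.sum_congr rfl fun i _ => ?_
    rw [inner_sub_right, inner_sub_left, ← inv_inv g, ← inner_rho, inv_inv]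
  have h2 : ∀ γ : G, ‖ρ g (ρ γ⁻¹ u) - ρ γ⁻¹ u‖ ^ 2 =
      ∑ i, ⟪u, ρ γ (ρ g⁻¹ (b i) - b i)⟫_ℝ ^ 2 := by
    intro γ
    rw [h1 _ (hU.2.1 _ u hu)]
    refine Finset.sum_congr rfl fun i _ => ?_
    rw [← inner_rho, real_inner_comm]
  rw [Finset.sum_congr rfl fun γ _ => h2 γ, Finset.sum_comm, Finset.mul_sum]
  have h3 : ∀ i, (finrank ℝ U : ℝ) * ∑ γ, ⟪u, ρ γ (ρ g⁻¹ (b i) - b i)⟫_ℝ ^ 2 =
      Fintype.card G * ‖ρ g (b i) - b i‖ ^ 2 * ‖u‖ ^ 2 := by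
    intro i
    rw [sum_inner_sq hU (U.sub_mem (hU.2.1 _ _ (b i).2) (b i).2) hu]
    congr 2
    have h4 : ‖ρ g⁻¹ (b i : E) - b i‖ = ‖ρ g (b i : E) - b i‖ := by
      have h5 : ρ g (ρ g⁻¹ (b i : E) - b i) = -(ρ g (b i : E) - b i) := by
        rw [map_sub, ← mul_app, ← map_mul, mul_inv_cancel, map_one, neg_sub, one_app]
      rw [← LinearIsometryEquiv.norm_map (ρ g), h5, norm_neg]
    rw [h4]
  rw [Finset.sum_congr rfl fun i _ => h3 i, ← Finset.sum_mul, ← Finset.mul_sum]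
  rfl

/-- the number of the vectors `γ e` in a subspace `W` of `U` -/
theorem card_flat {ρ : G →* (E ≃ₗᵢ[ℝ] E)} {U : Submodule ℝ E} (hU : Irr ρ U) {e : E}
    (he : e ∈ U) (he1 : ‖e‖ = 1) (W : Submodule ℝ E) (hW : W ≤ U) (T : Finset G)
    (hT : ∀ γ ∈ T, ρ γ e ∈ W) : finrank ℝ U * T.card ≤ Fintype.card G * finrank ℝ W := by
  set b := stdOrthonormalBasis ℝ W with hb
  have h1 : (finrank ℝ U : ℝ) * ∑ i, ∑ γ, ⟪(b i : E), ρ γ e⟫_ℝ ^ 2 =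
      Fintype.card G * finrank ℝ W := by
    rw [Finset.mul_sum]
    have h2 : ∀ i, (finrank ℝ U : ℝ) * ∑ γ, ⟪(b i : E), ρ γ e⟫_ℝ ^ 2 = Fintype.card G := by
      intro i
      rw [sum_inner_sq hU he (hW (b i).2), he1]
      have : ‖(b i : E)‖ = 1 := b.orthonormal.1 i
      rw [this]
      ring
    rw [Finset.sum_congr rfl fun i _ => h2 i]
    simp [mul_comm]
  rw [Finset.sum_comm] at h1
  have h3 : (T.card : ℝ) ≤ ∑ γ, ∑ i, ⟪(b i : E), ρ γ e⟫_ℝ ^ 2 := by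
    have h4 : (T.card : ℝ) = ∑ γ ∈ T, ∑ i, ⟪(b i : E), ρ γ e⟫_ℝ ^ 2 := by
      have h5 : ∀ γ ∈ T, ∑ i, ⟪(b i : E), ρ γ e⟫_ℝ ^ 2 = 1 := by
        intro γ hγ
        rw [sum_onb b (hT γ hγ), LinearIsometryEquiv.norm_map, he1]
        ring
      rw [Finset.sum_congr rfl h5]
      simp
    rw [h4]
    exact Finset.sum_le_sum_of_subset_of_nonneg (Finset.subset_univ _)
      fun _ _ _ => Finset.sum_nonneg fun _ _ => by positivity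
  have h6 : (finrank ℝ U : ℝ) * T.card ≤ Fintype.card G * finrank ℝ W := by
    rw [← h1]
    exact mul_le_mul_of_nonneg_left h3 (Nat.cast_nonneg _)
  exact_mod_cast h6

end Pool.Agent.H58.SK
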